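import Pool.Agent.W203.SP.Stm

/-!
# Project SP, part AMP: existence of the amplitude
-/

set_option autoImplicit false

open MeasureTheory Set Complex Filter Topology
open scoped ContDiff

namespace Pool.Agent.W377.SP

open Pool.Agent.W203.SP

/-- the real amplitude -/
noncomputable def amp (m : ℕ) (c p : ℝ) : ℝ :=
  Real.smoothTransition ((p - c / 2) / (c / 2)) * Real.smoothTransition (3 - p) *
    (1 / Real.sqrt p ^ m)

lemma amp_contDiff (m : ℕ) {c : ℝ} (hc : 0 < c) : ContDiff ℝ ∞ (amp m c) := by
  rw [contDiff_iff_contDiffAt]
  intro p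
  by_cases hp : p < c / 2
  · have h : amp m c =ᶠ[𝓝 p] fun _ => 0 := by
      filter_upwards [Iio_mem_nhds hp] with x hx
      have hx' : x < c / 2 := hx
      have : Real.smoothTransition ((x - c / 2) / (c / 2)) = 0 :=
        Real.smoothTransition.zero_of_nonpos
          (div_nonpos_of_nonpos_of_nonneg (by linarith) (by positivity))
      simp [amp, this]
    exact contDiffAt_const.congr_of_eventuallyEq h
  · have hp0 : 0 < p := lt_of_lt_of_le (by positivity) (not_lt.1 hp)
    unfold amp
    refine ContDiffAt.mul (ContDiffAt.mul ?_ ?_) ?_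
    · exact Real.smoothTransition.contDiff.contDiffAt.comp p
        ((contDiffAt_id.sub contDiffAt_const).div_const _)
    · exact Real.smoothTransition.contDiff.contDiffAt.comp p
        (contDiffAt_const.sub contDiffAt_id)
    · have h1 : ContDiffAt ℝ ∞ (fun x : ℝ => Real.sqrt x ^ m) p :=
        (Real.contDiffAt_sqrt hp0.ne').pow m
      exact contDiffAt_const.div h1 (pow_ne_zero _ (Real.sqrt_ne_zero'.2 hp0))

theorem t_AMP : S_AMP := by
  intro m c hc
  refine ⟨fun p => ((amp m c p : ℝ) : ℂ), ⟨?_, c / 2, c + 3, by positivity, by linarith, ?_⟩, ?_⟩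
  · exact Complex.ofRealCLM.contDiff.comp (amp_contDiff m hc)
  · intro p hp
    rw [mem_Icc, not_and_or, not_le, not_le] at hp
    have h0 : amp m c p = 0 := by
      rcases hp with hp | hp
      · have : Real.smoothTransition ((p - c / 2) / (c / 2)) = 0 :=
          Real.smoothTransition.zero_of_nonpos
            (div_nonpos_of_nonpos_of_nonneg (by linarith) (by positivity))
        simp [amp, this]
      · have : Real.smoothTransition (3 - p) = 0 :=
          Real.smoothTransition.zero_of_nonpos (by linarith)
        simp [amp, this]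
    simp [h0]
  · intro p hp
    have h1 : Real.smoothTransition ((p - c / 2) / (c / 2)) = 1 :=
      Real.smoothTransition.one_of_one_le (by rw [le_div_iff₀ (by positivity)]; linarith [hp.1])
    have h2 : Real.smoothTransition (3 - p) = 1 :=
      Real.smoothTransition.one_of_one_le (by linarith [hp.2])
    simp [amp, h1, h2]

end Pool.Agent.W377.SP
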